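import Pool.Agent.Helper37.PathSys.Final

set_option autoImplicit false

open Filter Topology Pool.Agent.Helper37.PathSys

/-- For `0 < δ ≤ 1`, asymptotically almost every graph `G` on `{0, …, n-1}` is connected and
at most a proportion `n ^ (-(δ/8) n²)` of its consistent path systems is induced by a weight
function for which at least a proportion `δ` of the pairs of vertices has a unique shortest
path. -/
theorem Pool.Agent.Results.MP_8013d7_co.FewUnique.result (δ : ℝ) (hδ0 : 0 < δ) (hδ1 : δ ≤ 1) :
    Tendsto (fun n : ℕ =>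
      ({G : SimpleGraph (Fin n) | G.Connected ∧ ((UniqueSystems δ G).ncard : ℝ) ≤
          (n : ℝ) ^ (-(δ / 8) * (n : ℝ) ^ 2) * ((AllSystems G).ncard : ℝ)}.ncard : ℝ) /
        (Nat.card (SimpleGraph (Fin n)) : ℝ)) atTop (𝓝 1) :=
  final δ hδ0 hδ1
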