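import Pool.Agent.Helper21.PS.FI

set_option autoImplicit false

open Filter Topology Pool.Agent.Helper37.PathSys

/-- For every `ε > 0`, asymptotically almost every graph `G` on `{0, …, n-1}` is connected and
at most a proportion `ε` of its consistent path systems is metrizable. -/
theorem Pool.Agent.Results.MP_8013d7_co.MetrizableVanish.result (ε : ℝ) (hε : 0 < ε) :
    Tendsto (fun n : ℕ =>
      ({G : SimpleGraph (Fin n) | G.Connected ∧
        ({P : PathSystem G | P.Consistent ∧ ∃ w : Sym2 (Fin n) → ℝ, P.Induces w}.ncard : ℝ) ≤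
          ε * ({P : PathSystem G | P.Consistent}.ncard : ℝ)}.ncard : ℝ) /
        (Nat.card (SimpleGraph (Fin n)) : ℝ)) atTop (𝓝 1) :=
  PS.final ε hε
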